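import Mathlib

set_option autoImplicit false

namespace Pool.Agent.Results.MP_026e5e_nt.Small

open ArithmeticFunction

theorem two_geom (e : ℕ) : ∑ i ∈ Finset.range (e + 1), 2 ^ i + 1 = 2 * 2 ^ e := by
  induction e with
  | zero => simp
  | succ e ih => rw [Finset.sum_range_succ, pow_succ]; omega

/-- No prime power and no product of two distinct primes satisfies `σ(n) = k n + 5`. -/
theorem result : ∀ n k : ℕ,
    ((∃ p e : ℕ, p.Prime ∧ n = p ^ e) ∨ (∃ p q : ℕ, p.Prime ∧ q.Prime ∧ p ≠ q ∧ n = p * q)) →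
    ∑ d ∈ n.divisors, d ≠ k * n + 5 := by
  rintro n k (⟨p, e, hp, rfl⟩ | ⟨p, q, hp, hq, hne, rfl⟩) h
  · rw [Nat.sum_divisors_prime_pow hp] at h
    rcases e with _ | e
    · simp at h
    · have h0 := h
      rw [Finset.sum_range_succ'] at h
      have h1 : p ∣ ∑ i ∈ Finset.range (e + 1), p ^ (i + 1) :=
        Finset.dvd_sum fun i _ => dvd_pow_self p (by omega)
      have h2 : p ∣ k * p ^ (e + 1) := Dvd.dvd.mul_left (dvd_pow_self p (by omega)) k
      have h3 : ∑ i ∈ Finset.range (e + 1), p ^ (i + 1) = k * p ^ (e + 1) + 2 ^ 2 := by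
        simp only [pow_zero] at h; omega
      rw [h3] at h1
      have h4 : p = 2 := (Nat.prime_dvd_prime_iff_eq hp Nat.prime_two).1
        (hp.dvd_of_dvd_pow ((Nat.dvd_add_right h2).1 h1))
      subst h4
      have h5 := two_geom (e + 1)
      rw [h0] at h5
      rcases e with _ | e
      · simp at h5
      · have e4 : 2 ^ (e + 1 + 1) = 4 * 2 ^ e := by ring
        rw [e4, show k * (4 * 2 ^ e) = 4 * (k * 2 ^ e) by ring] at h5
        omega
  · rw [Nat.Coprime.sum_divisors_mul ((Nat.coprime_primes hp hq).2 hne), hp.sum_divisors,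
      hq.sum_divisors] at h
    have a := hp.two_le
    have b := hq.two_le
    rcases k with _ | _ | k
    · nlinarith
    · have : p + q = 4 := by nlinarith
      omega
    · have h6 : p + q ≤ p * q := by nlinarith
      nlinarith [Nat.zero_le (k * (p * q))]

end Pool.Agent.Results.MP_026e5e_nt.Small
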